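import Mathlib
import Pool.Agent.Helper29.Curves.Defs
import Pool.Agent.Helper29.Curves.Bridge

/-!
# A covering family of J-holomorphic spheres without any regular member

On the compact 6-manifold `T⁴ × S²` there are a symplectic form `σ` and a compatible almost complex
structure `J` such that all the spheres `{b} × S²`, `b ∈ T⁴`, are J-holomorphic and none of them is
regular. These spheres cover `T⁴ × S²`, so a generic member of a covering family need not be
regular.

With angular coordinates `x₁, x₂, x₃, x₄` on the torus, `y ∈ S²`, and
`β = sin x₁ dx₂ + cos x₁ dx₃`, the form is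
`σ = dx₁ ∧ dx₄ + dx₂ ∧ dx₃ + 4 d(y₃ β) + 4 area`.
All definitions used in the statement are in `Pool.Agent.Helper29.Curves.Defs`.
-/

open scoped Manifold ContDiff

namespace Pool.Agent.Results.MP_143d65_gt.NoRegularMember

open Pool.Agent.Helper29.Curves

/-- Let `j` be the standard complex structure on the unit sphere `S2`, the rotation `v ↦ z × v` of
the tangent plane at `z`. There are a symplectic form `σ` on the compact manifold `T⁴ × S²` and a
`σ`-compatible almost complex structure `J` for which the maps `z ↦ (b, z)`, parametrised by the
connected manifold `T⁴`, form a smooth family of J-holomorphic spheres covering `T⁴ × S²`, no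
member of which is regular. -/
theorem result :
    CompactSpace T4S2 ∧ ConnectedSpace Torus ∧
    ∃ j : ∀ z : S2, TangentSpace IS2 z →L[ℝ] TangentSpace IS2 z, (∀ z, IsRotation z (j z)) ∧
    ∃ (σ : ∀ x : T4S2, TangentSpace IX x [⋀^Fin 2]→L[ℝ] ℝ)
      (J : ∀ x : T4S2, TangentSpace IX x →L[ℝ] TangentSpace IX x),
      IsSymplectic IX σ ∧ IsCompatible IX σ J ∧
      IsCoveringFamily IS2 j IX J IT (fun (b : Torus) (z : S2) => (b, z)) ∧
      ∀ b : Torus, ¬ IsRegular IS2 j IX J (fun z : S2 => (b, z)) :=
  ⟨inferInstance, inferInstance, _, isRotation, _, _, isSymplectic, isCompatible,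
    isCoveringFamily, fun b h => Pool.Agent.Helper29.JSphere.not_isRegular_vert b (isRegular h)⟩

end Pool.Agent.Results.MP_143d65_gt.NoRegularMember
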